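import Pool.Agent.Helper83.PT.St6

set_option autoImplicit false

/-! Project PT (helper83), MP_26f0da_lc: module G4 (helper91): derivations give runs with turns (adapted from Helper84/DC/M_G4.lean). -/

namespace Pool.Agent.Helper83.PT.Helper91

open Pool.Agent.Helper73.DC
open Finset
open scoped Classical

private theorem ev_stuck (lf cl : ℕ → ℕ) (rs : ℕ → ℕ → ℕ) (wt : ℕ → ℕ) (x v m k : ℕ) (h : Ev lf cl rs wt x v m k) :
    lf x = 0 → cl x = x → False := by
  induction h with
  | leaf x r hl => intro h0 _; omega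
  | node x r1 m1 n1 r2 m2 n2 h0 hc hr ih1 ih2 =>
    intro h0' hcl
    exact ih1 (by rw [hcl]; exact h0') (by rw [hcl]; exact hcl)

private theorem ev_leaf (lf cl : ℕ → ℕ) (rs : ℕ → ℕ → ℕ) (wt : ℕ → ℕ) (x v m k r : ℕ) (h : Ev lf cl rs wt x v m k)
    (hl : lf x = r + 1) : v = r ∧ m = wt x := by
  cases h with
  | leaf _ _ hl' => exact ⟨by omega, rfl⟩
  | node _ r1 m1 n1 r2 m2 n2 h0 hc hr => omega

private theorem run_trans {α : Type} (M : MPDA α) (w : List α) (m1 m2 : ℕ)
    (a b c : Bool × M.Q × (Fin M.k → ℕ) × List M.Γ) (h1 : TRunF M w m1 a b) (h2 : TRunF M w m2 b c) :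
    TRunF M w (m1 + m2) a c := by
  induction h1 with
  | refl a =>
    rw [Nat.zero_add]
    exact h2
  | step t u q q' p d Z s γ b hacc htr _ ih =>
    rw [Nat.add_assoc]
    exact TRunF.step _ u q q' p d Z s γ c hacc htr (ih h2)

private theorem aug_some {α : Type} (M : MPDA α) (q q' : M.Q) (u : Bool) (Z : M.Γ) (x : Fin M.k → Sym α)
    (d : Fin M.k → Mv) (γ : List M.Γ) (h : M.tr q Z x = some (q', d, γ)) :
    (aug M).tr (q, u) Z x = some ((q', fl γ u), d, γ) := by
  show (match M.tr q Z x with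
    | none => none
    | some (q', d, γ) => some ((q', fl γ u), d, γ)) = _
  rw [h]

private theorem aug_none {α : Type} (M : MPDA α) (q : M.Q) (u : Bool) (Z : M.Γ) (x : Fin M.k → Sym α)
    (h : M.tr q Z x = none) : (aug M).tr (q, u) Z x = none := by
  simp only [aug, h]

theorem mG4 : StG3 → StW → StG4 := by
  intro h3 hW
  intro α _ M T K num qn hD w x v m k hEv
  obtain ⟨w1, w2, w3, w4, _⟩ := hW M T K num qn hD w
  have hacE : ∀ r m n, Ev (T.lf w) (T.cl w) (T.rs w) (wtT M T K num w) (T.ac w.length) r m n → r = 0 ∧ m = 0 := by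
    intro r m n h
    obtain ⟨_, _, _, _, _, h7⟩ := h3 (aug M) T K num qn hD w (fun _ => 0) (fun _ => Nat.zero_le _)
    obtain ⟨a1, a2⟩ := ev_leaf _ _ _ _ _ _ _ _ 0 h (by rw [h7])
    exact ⟨a1, by rw [a2, w1]⟩
  induction hEv with
  | leaf x r hl =>
    intro q u β p hβ hp hx
    obtain ⟨h1, h2, h4, h5, h6, h7⟩ := h3 (aug M) T K num qn hD w p hp
    have hlx : T.lf w (mnd (aug M) num w.length (q, u) β p) = r + 1 := by
      rw [← hl, hx]
    by_cases hacc : M.acc q
    · have e1 : r + 1 = 1 := hlx.symm.trans (h1 (q, u) β hβ hacc)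
      have hr : r = 0 := by omega
      have ew : wtT M T K num w x = 0 := by
        rw [hx]
        exact w2 q u β p hβ hp (Or.inl hacc)
      rw [ew]
      exact ⟨fun _ s => ⟨u, q, p, β ++ s, hacc, TRunF.refl _⟩, fun hne => absurd hr hne⟩
    · match β, hβ, hx, hlx with
      | [], hβ, hx, hlx =>
        have e1 : r + 1 = qn (q, u) * (w.length + 2) ^ M.k + pcd w.length p + 2 := hlx.symm.trans (h2 (q, u) hacc)
        have hr : r = qn (q, u) * (w.length + 2) ^ M.k + pcd w.length p + 1 := by omega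
        have ew : wtT M T K num w x = 0 := by
          rw [hx]
          exact w2 q u [] p hβ hp (Or.inr (by simp))
        rw [ew]
        exact ⟨fun h0 => by omega, fun _ => ⟨u, q, p, hr, hp, fun s => TRunF.refl _⟩⟩
      | [Z], _, hx, hlx =>
        exfalso
        rcases htr : M.tr q Z (fun j => symAt w (p j)) with _ | ⟨q', d, γ⟩
        · have : r + 1 = 0 := hlx.symm.trans (h5 (q, u) Z hacc (aug_none M q u Z _ htr)).1
          omega
        · have : r + 1 = 0 := hlx.symm.trans (h4 (q, u) Z (q', fl γ u) d γ hacc (aug_some M q q' u Z _ d γ htr)).1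
          omega
      | Z :: Y :: β', hβ, hx, hlx =>
        exfalso
        have : r + 1 = 0 := hlx.symm.trans (h6 (q, u) Z Y β' hβ hacc).1
        omega
  | node x r1 m1 n1 r2 m2 n2 h0 hc hr ih1 ih2 =>
    intro q u β p hβ hp hx
    obtain ⟨h1, h2, h4, h5, h6, h7⟩ := h3 (aug M) T K num qn hD w p hp
    have hlx : T.lf w (mnd (aug M) num w.length (q, u) β p) = 0 := by
      rw [← h0, hx]
    by_cases hacc : M.acc q
    · exfalso
      have e1 : 0 = 1 := hlx.symm.trans (h1 (q, u) β hβ hacc)
      omega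
    · match β, hβ, hx, hlx with
      | [], _, hx, hlx =>
        exfalso
        have e1 : 0 = qn (q, u) * (w.length + 2) ^ M.k + pcd w.length p + 2 := hlx.symm.trans (h2 (q, u) hacc)
        omega
      | [Z], _, hx, hlx =>
        rcases htr : M.tr q Z (fun j => symAt w (p j)) with _ | ⟨q', d, γ⟩
        · exfalso
          have e2 : T.cl w x = x := by
            rw [hx]
            exact (h5 (q, u) Z hacc (aug_none M q u Z _ htr)).2
          have hfull := Ev.node x r1 m1 n1 r2 m2 n2 h0 hc hr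
          exact ev_stuck _ _ _ _ _ _ _ _ hfull h0 e2
        · have htr' := aug_some M q q' u Z _ d γ htr
          have e2 : T.cl w x = T.ac w.length := by
            rw [hx]
            exact (h4 (q, u) Z (q', fl γ u) d γ hacc htr').2.1
          have e3 : T.rs w x 0 = mnd (aug M) num w.length (q', fl γ u) γ (nps w d p) := by
            rw [hx]
            exact (h4 (q, u) Z (q', fl γ u) d γ hacc htr').2.2
          rw [e2] at hc
          obtain ⟨hr1, hm1⟩ := hacE _ _ _ hc
          have hγ : γ.length ≤ K := hD.hKt (q, u) Z _ (q', fl γ u) d γ htr'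
          have hnp : ∀ j, nps w d p j ≤ w.length + 1 := fun j => min_le_right _ _
          obtain ⟨j1, j2⟩ := ih2 q' (fl γ u) γ (nps w d p) hγ hnp (by rw [hr1]; exact e3)
          have ew : wtT M T K num w x = tu γ u := by
            rw [hx]
            exact w4 q u Z p q' d γ hp hacc htr
          rw [ew, hm1, Nat.add_zero]
          refine ⟨fun hv s => ?_, fun hv => ?_⟩
          · obtain ⟨u2, q2, p2, s2, hq2, hrun⟩ := j1 hv s
            exact ⟨u2, q2, p2, s2, hq2, TRunF.step _ u q q' p d Z s γ _ hacc htr hrun⟩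
          · obtain ⟨u2, q2, p2, k1, k2, k3⟩ := j2 hv
            exact ⟨u2, q2, p2, k1, k2, fun s => TRunF.step _ u q q' p d Z s γ _ hacc htr (k3 s)⟩
      | Z :: Y :: β', hβ, hx, hlx =>
        have e2 : T.cl w x = mnd (aug M) num w.length (q, u) [Z] p := by
          rw [hx]
          exact (h6 (q, u) Z Y β' hβ hacc).2.1
        have e4 : T.rs w x 0 = T.ac w.length := by
          rw [hx]
          exact (h6 (q, u) Z Y β' hβ hacc).2.2.1
        have e5 : ∀ (q1 : M.Q × Bool) (p1 : Fin M.k → ℕ), (∀ j, p1 j ≤ w.length + 1) →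
            T.rs w x (qn q1 * (w.length + 2) ^ M.k + pcd w.length p1 + 1) =
              mnd (aug M) num w.length q1 (Y :: β') p1 := by
          rw [hx]
          exact (h6 (q, u) Z Y β' hβ hacc).2.2.2
        obtain ⟨i1, i2⟩ := ih1 q u [Z] p (by simpa using hD.hK) hp e2
        have ew : wtT M T K num w x = 0 := by
          rw [hx]
          exact w2 q u (Z :: Y :: β') p hβ hp (Or.inr (by simp))
        rw [ew, Nat.zero_add]
        by_cases hr1 : r1 = 0
        · rw [hr1, e4] at hr
          obtain ⟨hr2, hm2⟩ := hacE _ _ _ hr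
          rw [hm2, Nat.add_zero]
          exact ⟨fun _ s => i1 hr1 (Y :: β' ++ s), fun hne => absurd hr2 hne⟩
        · obtain ⟨u1, q1, p1, k1, k2, k3⟩ := i2 hr1
          have hβ2 : (Y :: β').length ≤ K := by
            simp only [List.length_cons] at hβ ⊢
            omega
          obtain ⟨l1, l2⟩ := ih2 q1 u1 (Y :: β') p1 hβ2 k2 (by rw [k1]; exact e5 (q1, u1) p1 k2)
          refine ⟨fun hv s => ?_, fun hv => ?_⟩
          · obtain ⟨u2, q2, p2, s2, hq2, hrun⟩ := l1 hv s
            exact ⟨u2, q2, p2, s2, hq2, run_trans M w m1 m2 _ _ _ (k3 (Y :: β' ++ s)) hrun⟩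
          · obtain ⟨u2, q2, p2, a1, a2, a3⟩ := l2 hv
            exact ⟨u2, q2, p2, a1, a2, fun s => run_trans M w m1 m2 _ _ _ (k3 (Y :: β' ++ s)) (a3 s)⟩

end Pool.Agent.Helper83.PT.Helper91
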